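import Pool.Agent.J4H58.XC.Stm5
import Pool.Agent.J4H74.XC.Mom
import Pool.Agent.J4H57.OC.A4
import Pool.Agent.J4H21.OC.Ext
import Pool.Agent.R755.KF.G1

/-!
# XC, piece A3: convolution of a log-concave density with a narrow Gaussian
-/

set_option autoImplicit false

namespace Pool.Agent.J4H30.XC

open MeasureTheory Set Filter Topology ProbabilityTheory
open scoped ENNReal InnerProductSpace
open Pool.Agent.W695.KH (Eu)
open Pool.Agent.J4H58.OC (ordE LDn PI)
open Pool.Agent.J4H58.XC (Ex S_A3)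
open Pool.Agent.J4H57.OC (G G_pos G_cont G_le_one G_int G2_int Pf intP P_pos P_der P_int P_one Zf Z_pos
  transl G2_scale)

variable {n : ℕ} {ρ : Eu (Fin n) → ℝ} {A : ℝ}

/-! ### approximation -/

theorem approx' (ρ : Eu (Fin n) → ℝ) (hρ : LDn ρ) (ε : ℝ) (hε : 0 < ε) :
    ∃ A₀ : ℝ, 0 < A₀ ∧ ∀ A : ℝ, A₀ ≤ A → ∫ x, |Pf ρ A x / Zf n A - ρ x| ≤ ε := by
  obtain ⟨δ, hδ, hδ2⟩ := transl ρ hρ.int (ε / 2) (by positivity)
  set C : ℝ := (∫ z : Eu (Fin n), G 1 z * ‖z‖ ^ 2) / Zf n 1 with hC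
  have hC0 : 0 ≤ C := div_nonneg (integral_nonneg fun z =>
    mul_nonneg (G_pos _ _).le (sq_nonneg _)) (Z_pos one_pos).le
  set A₀ : ℝ := 4 * (C + 1) / (δ ^ 2 * ε) with hAd
  have hA₀ : 0 < A₀ := by positivity
  refine ⟨A₀, hA₀, fun A hAA => ?_⟩
  have hA : 0 < A := hA₀.trans_le hAA
  have hZ := Z_pos (n := n) hA
  set ω : Eu (Fin n) → ℝ := fun w => ∫ x, |ρ (x - w) - ρ x| with hω
  have hsh : ∀ w, Integrable fun x => ρ (x - w) := fun w => hρ.int.comp_sub_right w
  have hω2 : ∀ w, ω w ≤ 2 := by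
    intro w
    calc ω w ≤ ∫ x, (ρ (x - w) + ρ x) := by
          refine integral_mono ((hsh w).sub hρ.int).abs ((hsh w).add hρ.int) fun x => ?_
          calc |ρ (x - w) - ρ x| ≤ |ρ (x - w)| + |ρ x| := abs_sub _ _
            _ = _ := by rw [abs_of_nonneg (hρ.nonneg _), abs_of_nonneg (hρ.nonneg _)]
      _ = 2 := by
          rw [integral_add (hsh w) hρ.int, integral_sub_right_eq_self ρ w, hρ.one]; norm_num
  have hωb : ∀ w, ω w ≤ ε / 2 + 2 / δ ^ 2 * ‖w‖ ^ 2 := by
    intro w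
    by_cases hw : ‖w‖ < δ
    · have := hδ2 w hw
      have h2 : 0 ≤ 2 / δ ^ 2 * ‖w‖ ^ 2 := by positivity
      calc ω w ≤ ε / 2 := this
        _ ≤ _ := by linarith
    · push Not at hw
      have h2 : 1 ≤ ‖w‖ ^ 2 / δ ^ 2 := by
        rw [one_le_div (by positivity)]
        gcongr
      calc ω w ≤ 2 := hω2 w
        _ ≤ ε / 2 + 2 * (‖w‖ ^ 2 / δ ^ 2) := by linarith
        _ = _ := by ring
  have hrep : ∀ x, Pf ρ A x / Zf n A - ρ x = ∫ w, (ρ (x - w) - ρ x) * (G A w / Zf n A) := by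
    intro x
    have i1 : Integrable fun w => ρ (x - w) * G A w := by
      have := (intP hρ hA x).comp_sub_left x
      simpa [sub_sub_cancel] using this
    have e1 : Pf ρ A x = ∫ w, ρ (x - w) * G A w := by
      have := integral_sub_left_eq_self (fun w => ρ (x - w) * G A w) volume x
      rw [← this]
      simp only [sub_sub_cancel]
      rfl
    have e2 : ∀ w, (ρ (x - w) - ρ x) * (G A w / Zf n A) =
        (ρ (x - w) * G A w - ρ x * G A w) / Zf n A := by intro w; ring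
    simp_rw [e2]
    rw [integral_div, integral_sub i1 ((G_int hA).const_mul _), integral_const_mul, ← e1]
    change _ = (Pf ρ A x - ρ x * Zf n A) / Zf n A
    field_simp
  have hm : Measurable fun p : Eu (Fin n) × Eu (Fin n) =>
      ‖(ρ (p.1 - p.2) - ρ p.1) * (G A p.2 / Zf n A)‖ₑ := by
    have h1 : Measurable fun p : Eu (Fin n) × Eu (Fin n) => ρ (p.1 - p.2) :=
      hρ.meas.comp (measurable_fst.sub measurable_snd)
    have h2 : Measurable fun p : Eu (Fin n) × Eu (Fin n) => ρ p.1 := hρ.meas.comp measurable_fst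
    have h3 : Measurable fun p : Eu (Fin n) × Eu (Fin n) => G A p.2 / Zf n A :=
      ((G_cont A).measurable.comp measurable_snd).div_const _
    exact ((h1.sub h2).mul h3).enorm
  have hint : Integrable fun x => |Pf ρ A x / Zf n A - ρ x| :=
    (((P_int hρ hA).div_const _).sub hρ.int).abs
  have hi2 : Integrable fun w : Eu (Fin n) => (ε / 2 + 2 / δ ^ 2 * ‖w‖ ^ 2) * (G A w / Zf n A) := by
    have := (((G_int (n := n) hA).const_mul (ε / 2)).add
      ((G2_int (n := n) hA).const_mul (2 / δ ^ 2))).div_const (Zf n A)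
    refine this.congr (Filter.Eventually.of_forall fun w => ?_)
    simp only [Pi.add_apply]
    ring
  have hval : ∫ w : Eu (Fin n), (ε / 2 + 2 / δ ^ 2 * ‖w‖ ^ 2) * (G A w / Zf n A) ≤ ε := by
    have e : ∀ w : Eu (Fin n), (ε / 2 + 2 / δ ^ 2 * ‖w‖ ^ 2) * (G A w / Zf n A) =
        (ε / 2 * G A w + 2 / δ ^ 2 * (G A w * ‖w‖ ^ 2)) / Zf n A := by intro w; ring
    simp_rw [e]
    rw [integral_div, integral_add ((G_int hA).const_mul _) ((G2_int hA).const_mul _),
      integral_const_mul, integral_const_mul, G2_scale hA, ← hC]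
    change (ε / 2 * Zf n A + 2 / δ ^ 2 * (C / A * Zf n A)) / Zf n A ≤ ε
    have e2 : (ε / 2 * Zf n A + 2 / δ ^ 2 * (C / A * Zf n A)) / Zf n A =
        ε / 2 + 2 / δ ^ 2 * (C / A) := by field_simp
    rw [e2]
    have h4 : 4 * (C + 1) ≤ A * (δ ^ 2 * ε) := by
      rwa [hAd, div_le_iff₀ (by positivity)] at hAA
    have e3 : 2 / δ ^ 2 * (C / A) ≤ ε / 2 := by
      rw [div_mul_div_comm, div_le_iff₀ (by positivity)]
      nlinarith
    linarith
  have key : ENNReal.ofReal (∫ x, |Pf ρ A x / Zf n A - ρ x|) ≤ ENNReal.ofReal ε := by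
    calc ENNReal.ofReal (∫ x, |Pf ρ A x / Zf n A - ρ x|)
        = ∫⁻ x, ENNReal.ofReal |Pf ρ A x / Zf n A - ρ x| :=
          ofReal_integral_eq_lintegral_ofReal hint (Filter.Eventually.of_forall fun x => abs_nonneg _)
      _ ≤ ∫⁻ x, ∫⁻ w, ‖(ρ (x - w) - ρ x) * (G A w / Zf n A)‖ₑ := by
          refine lintegral_mono fun x => ?_
          rw [hrep x]
          have := enorm_integral_le_lintegral_enorm (μ := (volume : Measure (Eu (Fin n))))
            (fun w => (ρ (x - w) - ρ x) * (G A w / Zf n A))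
          rwa [Real.enorm_eq_ofReal_abs] at this
      _ = ∫⁻ w, ∫⁻ x, ‖(ρ (x - w) - ρ x) * (G A w / Zf n A)‖ₑ :=
          lintegral_lintegral_swap hm.aemeasurable
      _ ≤ ∫⁻ w, ENNReal.ofReal ((ε / 2 + 2 / δ ^ 2 * ‖w‖ ^ 2) * (G A w / Zf n A)) := by
          refine lintegral_mono fun w => ?_
          have e : ∀ x, ‖(ρ (x - w) - ρ x) * (G A w / Zf n A)‖ₑ =
              ENNReal.ofReal (|ρ (x - w) - ρ x| * (G A w / Zf n A)) := by
            intro x
            rw [Real.enorm_eq_ofReal_abs, abs_mul, abs_of_pos (div_pos (G_pos A w) hZ)]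
          simp_rw [e]
          have i5 : Integrable fun x => |ρ (x - w) - ρ x| * (G A w / Zf n A) :=
            (((hsh w).sub hρ.int).abs).mul_const _
          rw [← ofReal_integral_eq_lintegral_ofReal i5
            (Filter.Eventually.of_forall fun x => mul_nonneg (abs_nonneg _)
              (div_pos (G_pos A w) hZ).le)]
          rw [integral_mul_const]
          exact ENNReal.ofReal_le_ofReal (mul_le_mul_of_nonneg_right (hωb w)
            (div_pos (G_pos A w) hZ).le)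
      _ = ENNReal.ofReal (∫ w : Eu (Fin n), (ε / 2 + 2 / δ ^ 2 * ‖w‖ ^ 2) * (G A w / Zf n A)) := by
          rw [ofReal_integral_eq_lintegral_ofReal hi2]
          exact Filter.Eventually.of_forall fun w => mul_nonneg (by positivity)
            (div_pos (G_pos A w) hZ).le
      _ ≤ ENNReal.ofReal ε := ENNReal.ofReal_le_ofReal hval
  exact (ENNReal.ofReal_le_ofReal_iff hε.le).1 key

/-! ### averages over translations -/

/-- average of the translates -/
noncomputable def T (ρ F : Eu (Fin n) → ℝ) (w : Eu (Fin n)) : ℝ := ∫ x, F (x + w) * ρ x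

theorem fub (hρ : LDn ρ) (hA : 0 < A) (F : Eu (Fin n) → ℝ) (hF : Continuous F) (B : ℝ)
    (hB : ∀ x, |F x| ≤ B) : ∫ z, F z * Pf ρ A z = ∫ w, T ρ F w * G A w := by
  have hI : Integrable (fun p : Eu (Fin n) × Eu (Fin n) => F p.1 * (ρ p.2 * G A (p.1 - p.2)))
      ((volume : Measure (Eu (Fin n))).prod volume) := by
    have h1 : Integrable (fun p : Eu (Fin n) × Eu (Fin n) => ρ p.2 * G A (p.1 - p.2))
        ((volume : Measure (Eu (Fin n))).prod volume) :=
      Integrable.convolution_integrand (ContinuousLinearMap.mul ℝ ℝ) hρ.int (G_int hA)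
    exact h1.bdd_mul (c := B) (hF.comp continuous_fst).aestronglyMeasurable
      (Eventually.of_forall fun p => hB p.1)
  have hJ : Integrable (fun p : Eu (Fin n) × Eu (Fin n) => F (p.1 + p.2) * (ρ p.1 * G A p.2))
      ((volume : Measure (Eu (Fin n))).prod volume) := by
    have h1 : Integrable (fun p : Eu (Fin n) × Eu (Fin n) => ρ p.1 * G A p.2)
        ((volume : Measure (Eu (Fin n))).prod volume) := Integrable.mul_prod hρ.int (G_int hA)
    exact h1.bdd_mul (c := B) (hF.comp (continuous_fst.add continuous_snd)).aestronglyMeasurable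
      (Eventually.of_forall fun p => hB _)
  calc ∫ z, F z * Pf ρ A z = ∫ z, ∫ y, F z * (ρ y * G A (z - y)) := by
        refine integral_congr_ae (Eventually.of_forall fun z => ?_)
        show F z * ∫ y, ρ y * G A (z - y) = ∫ y, F z * (ρ y * G A (z - y))
        rw [integral_const_mul]
    _ = ∫ y, ∫ z, F z * (ρ y * G A (z - y)) := integral_integral_swap hI
    _ = ∫ y, ∫ w, F (y + w) * (ρ y * G A w) := by
        refine integral_congr_ae (Eventually.of_forall fun y => ?_)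
        have := integral_add_left_eq_self (μ := (volume : Measure (Eu (Fin n))))
          (fun z => F z * (ρ y * G A (z - y))) y
        show ∫ z, F z * (ρ y * G A (z - y)) = ∫ w, F (y + w) * (ρ y * G A w)
        rw [← this]
        simp only [add_sub_cancel_left]
    _ = ∫ w, ∫ y, F (y + w) * (ρ y * G A w) := integral_integral_swap hJ
    _ = ∫ w, T ρ F w * G A w := by
        refine integral_congr_ae (Eventually.of_forall fun w => ?_)
        show ∫ y, F (y + w) * (ρ y * G A w) = (∫ x, F (x + w) * ρ x) * G A w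
        rw [← integral_mul_const]
        refine integral_congr_ae (Eventually.of_forall fun y => ?_)
        show F (y + w) * (ρ y * G A w) = F (y + w) * ρ y * G A w
        ring

theorem intT (hρ : LDn ρ) {F : Eu (Fin n) → ℝ} (hF : Continuous F) {B : ℝ}
    (hB : ∀ x, |F x| ≤ B) (w : Eu (Fin n)) : Integrable fun x => F (x + w) * ρ x :=
  hρ.int.bdd_mul (c := B) (hF.comp (continuous_id.add continuous_const)).aestronglyMeasurable
    (Eventually.of_forall fun x => hB _)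

theorem T_bd (hρ : LDn ρ) {F : Eu (Fin n) → ℝ} {B : ℝ}
    (hB : ∀ x, |F x| ≤ B) (w : Eu (Fin n)) : |T ρ F w| ≤ B := by
  unfold T
  have h1 := norm_integral_le_of_norm_le (f := fun x => F (x + w) * ρ x) (hρ.int.const_mul B)
    (Eventually.of_forall fun x => by
      rw [norm_mul, Real.norm_eq_abs, Real.norm_of_nonneg (hρ.nonneg x)]
      exact mul_le_mul_of_nonneg_right (hB _) (hρ.nonneg x))
  rwa [integral_const_mul, hρ.one, mul_one, Real.norm_eq_abs] at h1

theorem T_cont (hρ : LDn ρ) {F : Eu (Fin n) → ℝ} (hF : Continuous F) {B : ℝ}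
    (hB : ∀ x, |F x| ≤ B) : Continuous (T ρ F) := by
  unfold T
  refine continuous_of_dominated (bound := fun x => B * ρ x)
    (fun w => (intT hρ hF hB w).aestronglyMeasurable) (fun w => Eventually.of_forall fun x => ?_)
    (hρ.int.const_mul B) (Eventually.of_forall fun x => ?_)
  · rw [norm_mul, Real.norm_eq_abs, Real.norm_of_nonneg (hρ.nonneg x)]
    exact mul_le_mul_of_nonneg_right (hB _) (hρ.nonneg x)
  · exact (hF.comp (continuous_const.add continuous_id)).mul continuous_const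

/-- the derivative of the average -/
noncomputable def DT (ρ f : Eu (Fin n) → ℝ) (w : Eu (Fin n)) : Eu (Fin n) →L[ℝ] ℝ :=
  ∫ x, ρ x • fderiv ℝ f (x + w)

theorem intD (hρ : LDn ρ) {f : Eu (Fin n) → ℝ} (hf : ContDiff ℝ 1 f) {B : ℝ}
    (hB : ∀ x, ‖fderiv ℝ f x‖ ≤ B) (w : Eu (Fin n)) :
    Integrable fun x => ρ x • fderiv ℝ f (x + w) := by
  have hd := hf.continuous_fderiv one_ne_zero
  refine (hρ.int.const_mul B).mono' ?_ (Eventually.of_forall fun x => ?_)
  · exact hρ.meas.aestronglyMeasurable.smul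
      (hd.comp (continuous_id.add continuous_const)).aestronglyMeasurable
  · rw [norm_smul, Real.norm_of_nonneg (hρ.nonneg x), mul_comm]
    exact mul_le_mul_of_nonneg_right (hB _) (hρ.nonneg x)

theorem T_der (hρ : LDn ρ) {f : Eu (Fin n) → ℝ} (hf : ContDiff ℝ 1 f) {B : ℝ}
    (hB : ∀ x, |f x| ≤ B) (hB' : ∀ x, ‖fderiv ℝ f x‖ ≤ B) (w : Eu (Fin n)) :
    HasFDerivAt (T ρ f) (DT ρ f w) w := by
  refine hasFDerivAt_integral_of_dominated_of_fderiv_le (𝕜 := ℝ) (s := univ) (x₀ := w)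
    (μ := (volume : Measure (Eu (Fin n))))
    (F := fun (w x : Eu (Fin n)) => f (x + w) * ρ x)
    (F' := fun (w x : Eu (Fin n)) => ρ x • fderiv ℝ f (x + w))
    (bound := fun x => B * ρ x) univ_mem
    (Eventually.of_forall fun z => (intT hρ hf.continuous hB z).aestronglyMeasurable)
    (intT hρ hf.continuous hB w) (intD hρ hf hB' w).aestronglyMeasurable
    (Eventually.of_forall fun x z _ => ?_) (hρ.int.const_mul B)
    (Eventually.of_forall fun x z _ => ?_)
  · rw [norm_smul, Real.norm_of_nonneg (hρ.nonneg x), mul_comm]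
    exact mul_le_mul_of_nonneg_right (hB' _) (hρ.nonneg x)
  · have h1 : HasFDerivAt (fun z : Eu (Fin n) => x + z) (ContinuousLinearMap.id ℝ (Eu (Fin n))) z :=
      (hasFDerivAt_id z).const_add x
    have h2 := ((hf.differentiable one_ne_zero (x + z)).hasFDerivAt.comp z h1).mul_const (ρ x)
    rwa [ContinuousLinearMap.comp_id] at h2

theorem DT_cont (hρ : LDn ρ) {f : Eu (Fin n) → ℝ} (hf : ContDiff ℝ 1 f) {B : ℝ}
    (hB' : ∀ x, ‖fderiv ℝ f x‖ ≤ B) : Continuous (DT ρ f) := by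
  unfold DT
  refine continuous_of_dominated (bound := fun x => B * ρ x)
    (fun w => (intD hρ hf hB' w).aestronglyMeasurable) (fun w => Eventually.of_forall fun x => ?_)
    (hρ.int.const_mul B) (Eventually.of_forall fun x => ?_)
  · rw [norm_smul, Real.norm_of_nonneg (hρ.nonneg x), mul_comm]
    exact mul_le_mul_of_nonneg_right (hB' _) (hρ.nonneg x)
  · exact ((hf.continuous_fderiv one_ne_zero).comp (continuous_const.add continuous_id)).const_smul (ρ x)

theorem T_c1 (hρ : LDn ρ) {f : Eu (Fin n) → ℝ} (hf : ContDiff ℝ 1 f) {B : ℝ}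
    (hB : ∀ x, |f x| ≤ B) (hB' : ∀ x, ‖fderiv ℝ f x‖ ≤ B) : ContDiff ℝ 1 (T ρ f) := by
  rw [contDiff_one_iff_fderiv]
  refine ⟨fun w => (T_der hρ hf hB hB' w).differentiableAt, ?_⟩
  have : fderiv ℝ (T ρ f) = DT ρ f := funext fun w => (T_der hρ hf hB hB' w).fderiv
  rw [this]
  exact DT_cont hρ hf hB'

/-- Jensen -/
theorem DT_sq (hρ : LDn ρ) {f : Eu (Fin n) → ℝ} (hf : ContDiff ℝ 1 f) {B : ℝ}
    (hB' : ∀ x, ‖fderiv ℝ f x‖ ≤ B) (w : Eu (Fin n)) :
    ‖DT ρ f w‖ ≤ B ∧ ‖DT ρ f w‖ ^ 2 ≤ T ρ (fun x => ‖fderiv ℝ f x‖ ^ 2) w := by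
  have hd := hf.continuous_fderiv one_ne_zero
  have hN : ∀ x, ‖ρ x • fderiv ℝ f (x + w)‖ = ‖fderiv ℝ f (x + w)‖ * ρ x := fun x => by
    rw [norm_smul, Real.norm_of_nonneg (hρ.nonneg x), mul_comm]
  have hB1 : ∀ x, |(fun x => ‖fderiv ℝ f x‖) x| ≤ B := fun x => by
    show |‖fderiv ℝ f x‖| ≤ B
    rw [abs_norm]; exact hB' x
  have h1 : ‖DT ρ f w‖ ≤ T ρ (fun x => ‖fderiv ℝ f x‖) w := by
    unfold DT T
    refine (norm_integral_le_integral_norm _).trans (le_of_eq ?_)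
    exact integral_congr_ae (Eventually.of_forall fun x => hN x)
  have hB0 : 0 ≤ B := (norm_nonneg _).trans (hB' 0)
  have hB2 : ∀ x, |(fun x => ‖fderiv ℝ f x‖ ^ 2) x| ≤ B ^ 2 := fun x => by
    show |‖fderiv ℝ f x‖ ^ 2| ≤ B ^ 2
    rw [abs_of_nonneg (by positivity)]
    exact pow_le_pow_left₀ (norm_nonneg _) (hB' x) 2
  have i1 : Integrable fun x => ‖fderiv ℝ f (x + w)‖ * ρ x :=
    intT hρ (F := fun x => ‖fderiv ℝ f x‖) hd.norm hB1 w
  have i2 : Integrable fun x => ‖fderiv ℝ f (x + w)‖ ^ 2 * ρ x :=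
    intT hρ (F := fun x => ‖fderiv ℝ f x‖ ^ 2) (hd.norm.pow 2) hB2 w
  refine ⟨h1.trans ((le_abs_self _).trans (T_bd hρ hB1 w)), ?_⟩
  set l : ℝ := T ρ (fun x => ‖fderiv ℝ f x‖) w with hl
  have h2 : 0 ≤ ∫ x, (‖fderiv ℝ f (x + w)‖ - l) ^ 2 * ρ x :=
    integral_nonneg fun x => mul_nonneg (sq_nonneg _) (hρ.nonneg x)
  have e : ∀ x, (‖fderiv ℝ f (x + w)‖ - l) ^ 2 * ρ x =
      ‖fderiv ℝ f (x + w)‖ ^ 2 * ρ x - 2 * l * (‖fderiv ℝ f (x + w)‖ * ρ x) + l ^ 2 * ρ x := by
    intro x; ring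
  simp_rw [e] at h2
  have i3 : Integrable fun x => ‖fderiv ℝ f (x + w)‖ ^ 2 * ρ x - 2 * l * (‖fderiv ℝ f (x + w)‖ * ρ x) :=
    i2.sub (i1.const_mul _)
  rw [integral_add i3 (hρ.int.const_mul _), integral_sub i2 (i1.const_mul _), integral_const_mul,
    integral_const_mul, hρ.one] at h2
  have h3 : ∫ x, ‖fderiv ℝ f (x + w)‖ * ρ x = l := rfl
  rw [h3] at h2
  have h4 : l ^ 2 ≤ T ρ (fun x => ‖fderiv ℝ f x‖ ^ 2) w := by
    show l ^ 2 ≤ ∫ x, ‖fderiv ℝ f (x + w)‖ ^ 2 * ρ x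
    nlinarith
  calc ‖DT ρ f w‖ ^ 2 ≤ l ^ 2 := pow_le_pow_left₀ (norm_nonneg _) h1 2
    _ ≤ _ := h4

/-! ### the inequality for one translate -/

/-- integrals with a density -/
theorem int_dens (hρ : LDn ρ) (F : Eu (Fin n) → ℝ) :
    ∫ x, F x ∂(volume.withDensity fun x => ENNReal.ofReal (ρ x)) = ∫ x, F x * ρ x := by
  rw [integral_withDensity_eq_integral_toReal_smul hρ.meas.ennreal_ofReal
    (Eventually.of_forall fun x => ENNReal.ofReal_lt_top)]
  apply integral_congr_ae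
  refine Eventually.of_forall fun x => ?_
  show (ENNReal.ofReal (ρ x)).toReal • F x = F x * ρ x
  rw [ENNReal.toReal_ofReal (hρ.nonneg x), smul_eq_mul, mul_comm]

theorem pi_real (hρ : LDn ρ) {K : ℝ} (hK : 0 < K)
    (hPI : PI (volume.withDensity fun x => ENNReal.ofReal (ρ x)) K) (v : Eu (Fin n) → ℝ)
    (hv : ContDiff ℝ 1 v) (B : ℝ) (hv1 : ∀ x, |v x| ≤ B) (hL : ∀ x, ‖fderiv ℝ v x‖ ≤ B) :
    (∫ x, v x ^ 2 * ρ x) - (∫ x, v x * ρ x) ^ 2 ≤ K * ∫ x, ‖fderiv ℝ v x‖ ^ 2 * ρ x := by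
  set μ : Measure (Eu (Fin n)) := volume.withDensity fun x => ENNReal.ofReal (ρ x) with hμ
  have hprob : IsProbabilityMeasure μ := by
    refine ⟨?_⟩
    rw [hμ, withDensity_apply _ MeasurableSet.univ, setLIntegral_univ,
      ← ofReal_integral_eq_lintegral_ofReal hρ.int (Eventually.of_forall hρ.nonneg), hρ.one]
    simp
  have h1 := hPI v hv
  rw [← int_dens hρ, ← int_dens hρ, ← int_dens hρ, ← hμ]
  have hvc := hv.continuous
  have hvm : MemLp v 2 μ := MemLp.of_bound hvc.aestronglyMeasurable B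
    (Eventually.of_forall fun x => by rw [Real.norm_eq_abs]; exact hv1 x)
  have hgc : Continuous fun x => ‖fderiv ℝ v x‖ ^ 2 :=
    (hv.continuous_fderiv one_ne_zero).norm.pow 2
  have hgi : Integrable (fun x => ‖fderiv ℝ v x‖ ^ 2) μ :=
    Integrable.of_bound hgc.aestronglyMeasurable (B ^ 2) (Eventually.of_forall fun x => by
      rw [Real.norm_eq_abs, abs_of_nonneg (by positivity)]
      exact pow_le_pow_left₀ (norm_nonneg _) (hL x) 2)
  have h2 : (∫ x, v x ^ 2 ∂μ) - (∫ x, v x ∂μ) ^ 2 = variance v μ := by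
    rw [variance_eq_sub hvm]
    rfl
  rw [h2]
  have h3 : ENNReal.ofReal (variance v μ) ≤
      ENNReal.ofReal (K * ∫ x, ‖fderiv ℝ v x‖ ^ 2 ∂μ) := by
    rw [ofReal_variance hvm, ENNReal.ofReal_mul hK.le,
      ofReal_integral_eq_lintegral_ofReal hgi (Eventually.of_forall fun x => by positivity)]
    exact h1
  exact (ENNReal.ofReal_le_ofReal_iff (mul_nonneg hK.le
    (integral_nonneg fun x => by positivity))).1 h3

/-- the inequality for the translates -/
theorem pi_T (hρ : LDn ρ) {K : ℝ} (hK : 0 < K)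
    (hPI : PI (volume.withDensity fun x => ENNReal.ofReal (ρ x)) K) (f : Eu (Fin n) → ℝ)
    (hf : ContDiff ℝ 1 f) (B : ℝ) (hB : ∀ x, |f x| ≤ B) (hB' : ∀ x, ‖fderiv ℝ f x‖ ≤ B)
    (w : Eu (Fin n)) :
    T ρ (fun x => f x ^ 2) w - (T ρ f w) ^ 2 ≤ K * T ρ (fun x => ‖fderiv ℝ f x‖ ^ 2) w := by
  have hd : ∀ x, fderiv ℝ (fun x => f (x + w)) x = fderiv ℝ f (x + w) := fun x =>
    fderiv_comp_add_right w
  have h1 := pi_real hρ hK hPI (fun x => f (x + w)) (hf.comp (contDiff_id.add contDiff_const)) B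
    (fun x => hB _) (fun x => by rw [hd]; exact hB' _)
  simp only [hd] at h1
  exact h1

/-! ### the Gaussian average -/

theorem G_gs (hA : 0 < A) (F : Eu (Fin n) → ℝ) :
    Pool.Agent.H888R2.KT.gs (κ := Fin n) (1 / A) F 0 = (∫ w, F w * G A w) / Zf n A := by
  have e : ∀ w : Eu (Fin n), ‖w‖ ^ 2 / (2 * (1 / A)) = A / 2 * ‖w‖ ^ 2 := fun w => by
    field_simp
  unfold Pool.Agent.H888R2.KT.gs Pool.Agent.H888R2.KT.gc Zf G
  simp only [zero_sub, norm_neg, e]

theorem pi_conv (hρ : LDn ρ) {K : ℝ} (hK : 0 < K) (hA : 0 < A)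
    (hPI : PI (volume.withDensity fun x => ENNReal.ofReal (ρ x)) K) (f : Eu (Fin n) → ℝ)
    (hf : ContDiff ℝ 1 f) (B : ℝ) (hB : ∀ x, |f x| ≤ B) (hB' : ∀ x, ‖fderiv ℝ f x‖ ≤ B) :
    (∫ x, f x ^ 2 * (Pf ρ A x / Zf n A)) - (∫ x, f x * (Pf ρ A x / Zf n A)) ^ 2 ≤
      (K + 1 / A) * ∫ x, ‖fderiv ℝ f x‖ ^ 2 * (Pf ρ A x / Zf n A) := by
  have hZ := Z_pos (n := n) hA
  have hB0 : 0 ≤ B := (norm_nonneg _).trans (hB' 0)
  have hfc := hf.continuous
  have hdc := hf.continuous_fderiv one_ne_zero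
  have hB2 : ∀ x, |(fun x => f x ^ 2) x| ≤ B ^ 2 := fun x => by
    show |f x ^ 2| ≤ B ^ 2
    rw [abs_pow]
    exact pow_le_pow_left₀ (abs_nonneg _) (hB x) 2
  have hB3 : ∀ x, |(fun x => ‖fderiv ℝ f x‖ ^ 2) x| ≤ B ^ 2 := fun x => by
    show |‖fderiv ℝ f x‖ ^ 2| ≤ B ^ 2
    rw [abs_of_nonneg (by positivity)]
    exact pow_le_pow_left₀ (norm_nonneg _) (hB' x) 2
  have hdiv : ∀ (F : Eu (Fin n) → ℝ), ∫ x, F x * (Pf ρ A x / Zf n A) = (∫ x, F x * Pf ρ A x) / Zf n A := by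
    intro F
    rw [← integral_div]
    exact integral_congr_ae (Eventually.of_forall fun x => by
      show F x * (Pf ρ A x / Zf n A) = F x * Pf ρ A x / Zf n A
      ring)
  rw [hdiv, hdiv, hdiv, fub hρ hA _ hfc B hB, fub hρ hA (fun x => f x ^ 2) (hfc.pow 2) _ hB2,
    fub hρ hA (fun x => ‖fderiv ℝ f x‖ ^ 2) (hdc.norm.pow 2) _ hB3]
  -- the Gaussian inequality for the average
  have hg := Pool.Agent.R755.KF.gp n (1 / A) B (T ρ f) (by positivity)
    ⟨T_c1 hρ hf hB hB', T_bd hρ hB, fun w => by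
      rw [(T_der hρ hf hB hB' w).fderiv]
      exact (DT_sq hρ hf hB' w).1⟩ 0
  rw [G_gs hA, G_gs hA, G_gs hA] at hg
  have iG := G_int (n := n) hA
  have ic : ∀ (F : Eu (Fin n) → ℝ) (M : ℝ), Continuous F → (∀ x, |F x| ≤ M) →
      Integrable fun w => F w * G A w := fun F M hF hM =>
    iG.bdd_mul (c := M) hF.aestronglyMeasurable (Eventually.of_forall fun x => hM x)
  have c1 := T_cont hρ hfc hB
  have c2 : Continuous (T ρ fun x => f x ^ 2) := T_cont hρ (F := fun x => f x ^ 2) (hfc.pow 2) hB2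
  have c3 : Continuous (T ρ fun x => ‖fderiv ℝ f x‖ ^ 2) :=
    T_cont hρ (F := fun x => ‖fderiv ℝ f x‖ ^ 2) (hdc.norm.pow 2) hB3
  have b1 := T_bd hρ hB
  have b2 := T_bd hρ hB2
  have b3 := T_bd hρ hB3
  have i1 : Integrable fun w => (T ρ f w) ^ 2 * G A w := ic _ (B ^ 2) (c1.pow 2) (fun x => by
    rw [abs_pow]
    exact pow_le_pow_left₀ (abs_nonneg _) (b1 x) 2)
  have i2 := ic _ _ c2 b2
  have i3 := ic _ _ c3 b3
  have k1 : ∫ w, ‖fderiv ℝ (T ρ f) w‖ ^ 2 * G A w ≤ ∫ w, T ρ (fun x => ‖fderiv ℝ f x‖ ^ 2) w * G A w := by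
    refine integral_mono_of_nonneg (Eventually.of_forall fun w => ?_) i3 (Eventually.of_forall fun w => ?_)
    · exact mul_nonneg (sq_nonneg _) (G_pos _ _).le
    · refine mul_le_mul_of_nonneg_right ?_ (G_pos _ _).le
      rw [(T_der hρ hf hB hB' w).fderiv]
      exact (DT_sq hρ hf hB' w).2
  have k2 : (∫ w, T ρ (fun x => f x ^ 2) w * G A w) - ∫ w, (T ρ f w) ^ 2 * G A w ≤
      K * ∫ w, T ρ (fun x => ‖fderiv ℝ f x‖ ^ 2) w * G A w := by
    rw [← integral_sub i2 i1, ← integral_const_mul]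
    refine integral_mono (i2.sub i1) (i3.const_mul K) fun w => ?_
    show T ρ (fun x => f x ^ 2) w * G A w - (T ρ f w) ^ 2 * G A w ≤
      K * (T ρ (fun x => ‖fderiv ℝ f x‖ ^ 2) w * G A w)
    have := mul_le_mul_of_nonneg_right (pi_T hρ hK hPI f hf B hB hB' w) (G_pos A w).le
    linarith
  set P := ∫ w, T ρ (fun x => f x ^ 2) w * G A w with hP
  set Q := ∫ w, (T ρ f w) ^ 2 * G A w with hQ
  set E := ∫ w, T ρ (fun x => ‖fderiv ℝ f x‖ ^ 2) w * G A w with hE
  set D := ∫ w, ‖fderiv ℝ (T ρ f) w‖ ^ 2 * G A w with hD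
  set a := (∫ w, T ρ f w * G A w) / Zf n A with ha
  have k3 : (P - Q) / Zf n A ≤ K * E / Zf n A := div_le_div_of_nonneg_right k2 hZ.le
  have k4 : D / Zf n A ≤ E / Zf n A := div_le_div_of_nonneg_right k1 hZ.le
  have k5 : 1 / A * (D / Zf n A) ≤ 1 / A * (E / Zf n A) := mul_le_mul_of_nonneg_left k4 (by positivity)
  have e1 : (K + 1 / A) * (E / Zf n A) = K * E / Zf n A + 1 / A * (E / Zf n A) := by ring
  have e2 : (P - Q) / Zf n A = P / Zf n A - Q / Zf n A := by ring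
  rw [e1]
  rw [e2] at k3
  linarith

/-! ### the other properties -/

/-- permutation of the coordinates -/
noncomputable def perm (p : Equiv.Perm (Fin n)) : Eu (Fin n) ≃ₗᵢ[ℝ] Eu (Fin n) :=
  LinearIsometryEquiv.piLpCongrLeft 2 ℝ ℝ p.symm

theorem perm_apply (p : Equiv.Perm (Fin n)) (x : Eu (Fin n)) (i : Fin n) :
    perm p x i = x (p i) := by
  simp [perm, LinearIsometryEquiv.piLpCongrLeft_apply, Equiv.piCongrLeft'_apply]

theorem perm_eq (p : Equiv.Perm (Fin n)) (x : Eu (Fin n)) :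
    perm p x = WithLp.toLp 2 fun i => x (p i) := by
  ext i
  rw [perm_apply]

theorem int_perm (p : Equiv.Perm (Fin n)) (F : Eu (Fin n) → ℝ) : ∫ x, F (perm p x) = ∫ x, F x :=
  (perm p).measurePreserving.integral_comp (perm p).toHomeomorph.measurableEmbedding F

theorem P_perm (hx : Ex ρ) (p : Equiv.Perm (Fin n)) (x : Eu (Fin n)) :
    Pf ρ A (WithLp.toLp 2 fun i => x (p i)) = Pf ρ A x := by
  rw [← perm_eq]
  unfold Pf
  rw [← int_perm p]
  refine integral_congr_ae (Eventually.of_forall fun y => ?_)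
  show ρ (perm p y) * G A (perm p x - perm p y) = ρ y * G A (x - y)
  rw [← map_sub, perm_eq p y, hx.perm]
  unfold G
  rw [LinearIsometryEquiv.norm_map]

theorem dec (hn : 1 ≤ n) (hρ : LDn ρ) (hA : 0 < A) : ∃ A' b : ℝ, 0 < b ∧
    ∀ x : Eu (Fin n), Pf ρ A x / Zf n A ≤ A' * Real.exp (-b * ∑ i, |x i|) := by
  obtain ⟨A₁, b, hb, hdec, -, -⟩ := Pool.Agent.J4H74.XC.Mom.t_MOM n ρ hn hρ
  have hZ := Z_pos (n := n) hA
  have hA1 : 0 ≤ A₁ := by
    have h1 := (hρ.nonneg 0).trans (hdec 0)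
    rw [norm_zero, mul_zero, Real.exp_zero, mul_one] at h1
    exact h1
  have hnr : (0 : ℝ) < n := by exact_mod_cast hn
  -- exponential moment of the kernel
  have hG1 : ∀ w : Eu (Fin n), Real.exp (b * ‖w‖) * G A w ≤ Real.exp (b ^ 2 / A) * G (A / 2) w := by
    intro w
    unfold G
    rw [← Real.exp_add, ← Real.exp_add, Real.exp_le_exp]
    have h1 : 0 ≤ A / 4 * (‖w‖ - 2 * b / A) ^ 2 := by positivity
    have h2 : A / 4 * (‖w‖ - 2 * b / A) ^ 2 = A / 4 * ‖w‖ ^ 2 - b * ‖w‖ + b ^ 2 / A := by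
      field_simp
      ring
    rw [h2] at h1
    nlinarith
  have hGi : Integrable fun w : Eu (Fin n) => Real.exp (b * ‖w‖) * G A w := by
    refine ((G_int (n := n) (A := A / 2) (by positivity)).const_mul (Real.exp (b ^ 2 / A))).mono'
      ?_ (Eventually.of_forall fun w => ?_)
    · exact ((Real.continuous_exp.comp (continuous_const.mul continuous_norm)).mul
        (G_cont A)).aestronglyMeasurable
    · rw [Real.norm_of_nonneg (mul_nonneg (Real.exp_pos _).le (G_pos _ _).le)]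
      exact hG1 w
  set M : ℝ := ∫ w : Eu (Fin n), Real.exp (b * ‖w‖) * G A w with hM
  have hM0 : 0 ≤ M := integral_nonneg fun w => mul_nonneg (Real.exp_pos _).le (G_pos _ _).le
  refine ⟨A₁ * M / Zf n A, b / n, by positivity, fun x => ?_⟩
  have h1 : Pf ρ A x ≤ A₁ * M * Real.exp (-b * ‖x‖) := by
    have e1 : Pf ρ A x = ∫ w, ρ (x - w) * G A w := by
      have := integral_sub_left_eq_self (fun w => ρ (x - w) * G A w) volume x
      rw [← this]
      simp only [sub_sub_cancel]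
      rfl
    have e2 : A₁ * M * Real.exp (-b * ‖x‖) =
        ∫ w : Eu (Fin n), A₁ * Real.exp (-b * ‖x‖) * (Real.exp (b * ‖w‖) * G A w) := by
      rw [integral_const_mul]
      ring
    rw [e1, e2]
    refine integral_mono_of_nonneg (Eventually.of_forall fun w => ?_) (hGi.const_mul _)
      (Eventually.of_forall fun w => ?_)
    · exact mul_nonneg (hρ.nonneg _) (G_pos _ _).le
    · show ρ (x - w) * G A w ≤ A₁ * Real.exp (-b * ‖x‖) * (Real.exp (b * ‖w‖) * G A w)
      rw [← mul_assoc]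
      refine mul_le_mul_of_nonneg_right ?_ (G_pos _ _).le
      refine (hdec _).trans ?_
      rw [mul_assoc, ← Real.exp_add]
      refine mul_le_mul_of_nonneg_left (Real.exp_le_exp.2 ?_) hA1
      have h2 : ‖x‖ - ‖w‖ ≤ ‖x - w‖ := norm_sub_norm_le x w
      nlinarith
  have h2 : ∑ i, |x i| ≤ n * ‖x‖ := by
    calc ∑ i, |x i| ≤ ∑ _i : Fin n, ‖x‖ := Finset.sum_le_sum fun i _ => by
          have := PiLp.norm_apply_le x i
          rwa [Real.norm_eq_abs] at this
      _ = n * ‖x‖ := by rw [Finset.sum_const, Finset.card_univ, Fintype.card_fin, nsmul_eq_mul]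
  have h3 : -b * ‖x‖ ≤ -(b / n) * ∑ i, |x i| := by
    have h4 : b / n * ∑ i, |x i| ≤ b / n * (n * ‖x‖) := mul_le_mul_of_nonneg_left h2 (by positivity)
    have h5 : b / n * (n * ‖x‖) = b * ‖x‖ := by field_simp
    linarith
  calc Pf ρ A x / Zf n A ≤ A₁ * M * Real.exp (-b * ‖x‖) / Zf n A := div_le_div_of_nonneg_right h1 hZ.le
    _ ≤ A₁ * M * Real.exp (-(b / n) * ∑ i, |x i|) / Zf n A := by
        apply div_le_div_of_nonneg_right _ hZ.le
        exact mul_le_mul_of_nonneg_left (Real.exp_le_exp.2 h3) (by positivity)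
    _ = _ := by ring

theorem t_A3 : S_A3 := by
  intro n ρ K ε hn hx hK hPI hε
  have hρ := hx.ld
  obtain ⟨A₀, hA₀, happ⟩ := approx' ρ hρ ε hε
  obtain ⟨A, hAd⟩ : ∃ A : ℝ, A = max A₀ (1 / ε) := ⟨_, rfl⟩
  have hA1 : A₀ ≤ A := hAd ▸ le_max_left _ _
  have hA2 : 1 / ε ≤ A := hAd ▸ le_max_right _ _
  have hA : 0 < A := hA₀.trans_le hA1
  have hAε : 1 / A ≤ ε := by
    rw [div_le_iff₀ hε] at hA2
    rw [div_le_iff₀ hA]
    linarith
  have hZ := Z_pos (n := n) hA
  have hPc : Continuous (Pf ρ A) :=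
    continuous_iff_continuousAt.2 fun x => (P_der hρ hA x).continuousAt
  have hrc : Continuous fun x => Pf ρ A x / Zf n A := hPc.div_const _
  have hr0 : ∀ x, 0 < Pf ρ A x / Zf n A := fun x => div_pos (P_pos hρ hA x) hZ
  have hri : Integrable fun x => Pf ρ A x / Zf n A := (P_int hρ hA).div_const _
  have hr1 : ∫ x, Pf ρ A x / Zf n A = 1 := by
    rw [integral_div, P_one hρ hA, div_self hZ.ne']
  refine ⟨fun x => Pf ρ A x / Zf n A, hrc, hr0, hri, hr1, fun σ x => ?_, dec hn hρ hA, ?_, happ A hA1⟩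
  · show Pf ρ A (WithLp.toLp 2 fun i => x (σ i)) / Zf n A = Pf ρ A x / Zf n A
    rw [P_perm hx]
  · have hprob : IsProbabilityMeasure (volume.withDensity fun x => ENNReal.ofReal (Pf ρ A x / Zf n A)) := by
      refine ⟨?_⟩
      rw [withDensity_apply _ MeasurableSet.univ, setLIntegral_univ,
        ← ofReal_integral_eq_lintegral_ofReal hri (Eventually.of_forall fun x => (hr0 x).le), hr1]
      simp
    have hint : ∀ F : Eu (Fin n) → ℝ,
        ∫ x, F x ∂(volume.withDensity fun x => ENNReal.ofReal (Pf ρ A x / Zf n A)) =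
          ∫ x, F x * (Pf ρ A x / Zf n A) := by
      intro F
      rw [integral_withDensity_eq_integral_toReal_smul hrc.measurable.ennreal_ofReal
        (Eventually.of_forall fun x => ENNReal.ofReal_lt_top)]
      refine integral_congr_ae (Eventually.of_forall fun x => ?_)
      show (ENNReal.ofReal (Pf ρ A x / Zf n A)).toReal • F x = F x * (Pf ρ A x / Zf n A)
      rw [ENNReal.toReal_ofReal (hr0 x).le, smul_eq_mul, mul_comm]
    refine Pool.Agent.J4H21.OC.Ext.t_EXT n _ hprob (K + ε) (by positivity) (fun f hf hfs => ?_)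
    obtain ⟨B₁, hB₁⟩ := hf.continuous.bounded_above_of_compact_support hfs
    obtain ⟨B₂, hB₂⟩ := (hf.continuous_fderiv one_ne_zero).bounded_above_of_compact_support
      (hfs.fderiv (𝕜 := ℝ))
    have h1 := pi_conv hρ hK hA hPI f hf (max B₁ B₂) (fun x => (hB₁ x).trans (le_max_left _ _))
      (fun x => (hB₂ x).trans (le_max_right _ _))
    rw [hint, hint, hint]
    refine h1.trans (mul_le_mul_of_nonneg_right (by linarith) ?_)
    exact integral_nonneg fun x => mul_nonneg (sq_nonneg _) (hr0 x).le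

end Pool.Agent.J4H30.XC
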